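import Pool.Agent.H29.LA.Targets

set_option autoImplicit false
set_option linter.unusedVariables false

namespace Pool.Agent.H34.LA

open Pool.Agent.H29.LA

theorem gra_index {G X : Type} [Group G] [Finite G] (φ : G →* Equiv.Perm X)
    (ht : ∀ i j, ∃ g, φ g i = j) (x : X) :
    ∃ S : Subgroup G, S.index = Nat.card X ∧ ∀ P : Subgroup G,
      S.relIndex P = {y | ∃ p ∈ P, φ p x = y}.ncard := by
  let _ : MulAction G X := MulAction.compHom X φ
  have hsm : ∀ (g : G) (y : X), g • y = φ g y := fun g y => rfl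
  have : MulAction.IsPretransitive G X := ⟨fun a b => by
    obtain ⟨g, hg⟩ := ht a b
    exact ⟨g, hg⟩⟩
  refine ⟨MulAction.stabilizer G x, MulAction.index_stabilizer_of_transitive G x, fun P => ?_⟩
  have h1 : (MulAction.stabilizer G x).subgroupOf P = MulAction.stabilizer P x := by
    ext p
    rw [Subgroup.mem_subgroupOf, MulAction.mem_stabilizer_iff, MulAction.mem_stabilizer_iff,
      Subgroup.smul_def]
  have h2 : (MulAction.orbit P x : Set X) = {y | ∃ p ∈ P, φ p x = y} := by
    ext y
    constructor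
    · rintro ⟨p, hp⟩
      exact ⟨p, p.2, hp⟩
    · rintro ⟨p, hp, h⟩
      exact ⟨⟨p, hp⟩, h⟩
  rw [Subgroup.relIndex, h1, MulAction.index_stabilizer, h2]

theorem pf_GRA : T_GRA := by
  refine ⟨?_, ?_⟩
  · intro G _ _ l k φ hl hk ht hG
    have hpos : 0 < l ^ k := pow_pos hl.pos k
    obtain ⟨S, hS, -⟩ := gra_index φ ht ⟨0, hpos⟩
    rw [Nat.card_fin] at hS
    have h1 : l ∣ Nat.card G :=
      (dvd_pow_self l hk.ne').trans (hS ▸ S.index_dvd_card)
    have h2 : l ∣ 1 := by
      have h3 : (Nat.card G).Coprime l := hG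
      rw [← h3.gcd_eq_one]
      exact Nat.dvd_gcd h1 dvd_rfl
    exact hl.one_lt.ne' (Nat.dvd_one.1 h2)
  · intro G _ _ k φ hk ht hG
    have : Fact (Nat.Prime 2) := ⟨Nat.prime_two⟩
    have hpos : 0 < 2 ^ k := pow_pos two_pos k
    have hlt : 1 < 2 ^ k := Nat.one_lt_two_pow hk.ne'
    let x : Fin (2 ^ k) := ⟨0, hpos⟩
    obtain ⟨S, hS, hSP⟩ := gra_index φ ht x
    rw [Nat.card_fin] at hS
    let P : Sylow 2 G := default
    have h1 : 2 ^ k ∣ S.relIndex P * (P : Subgroup G).index := by
      have h2 : (S ⊓ (P : Subgroup G)).relIndex P * (P : Subgroup G).index =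
          (S ⊓ (P : Subgroup G)).index := Subgroup.relIndex_mul_index inf_le_right
      rw [Subgroup.inf_relIndex_right] at h2
      rw [h2, ← hS]
      exact Subgroup.index_dvd_of_le inf_le_left
    have h3 : Nat.Coprime (2 ^ k) (P : Subgroup G).index := by
      apply Nat.Coprime.pow_left
      exact (Nat.Prime.coprime_iff_not_dvd Nat.prime_two).2 P.not_dvd_index
    have h4 : 2 ^ k ∣ S.relIndex P := h3.dvd_of_dvd_mul_right h1
    have h5 : S.relIndex P ≠ 0 := by
      rw [Subgroup.relIndex]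
      exact Subgroup.index_ne_zero_of_finite
    have h6 : 2 ^ k ≤ {y | ∃ p ∈ (P : Subgroup G), φ p x = y}.ncard := by
      rw [← hSP P]
      exact Nat.le_of_dvd (Nat.pos_of_ne_zero h5) h4
    have h7 : {y | ∃ p ∈ (P : Subgroup G), φ p x = y} = Set.univ := by
      apply Set.eq_of_subset_of_ncard_le (Set.subset_univ _)
      rw [Set.ncard_univ, Nat.card_fin]
      exact h6
    have h8 : ∀ y, ∃ p ∈ (P : Subgroup G), φ p x = y := fun y => by
      have : y ∈ {y | ∃ p ∈ (P : Subgroup G), φ p x = y} := by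
        rw [h7]
        exact Set.mem_univ y
      exact this
    have := hG P
    obtain ⟨g, hg⟩ := IsCyclic.exists_generator (α := P)
    have h9 : ∀ y, (φ g).SameCycle x y := by
      intro y
      obtain ⟨p, hp, hpy⟩ := h8 y
      obtain ⟨i, hi⟩ := Subgroup.mem_zpowers_iff.1 (hg ⟨p, hp⟩)
      refine ⟨i, ?_⟩
      have h10 : (g : G) ^ i = p := by
        have := congrArg Subtype.val hi
        rw [Subgroup.coe_zpow] at this
        exact this
      rw [← map_zpow, h10]
      exact hpy
    have h11 : φ g x ≠ x := by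
      intro h
      have h12 : (⟨1, hlt⟩ : Fin (2 ^ k)) = x := by
        obtain ⟨i, hi⟩ := h9 ⟨1, hlt⟩
        rw [← hi]
        exact Equiv.Perm.zpow_apply_eq_self_of_apply_eq_self h i
      have := congrArg Fin.val h12
      exact absurd this one_ne_zero
    have hcyc : (φ g).IsCycle := ⟨x, h11, fun y _ => h9 y⟩
    have hsupp : (φ g).support = Finset.univ := by
      rw [Finset.eq_univ_iff_forall]
      intro y
      rw [Equiv.Perm.mem_support]
      intro hy
      exact h11 ((h9 y).apply_eq_self_iff.2 hy)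
    refine ⟨g, ?_⟩
    rw [hcyc.sign, hsupp, Finset.card_univ, Fintype.card_fin]
    have heven : Even (2 ^ k) := (Nat.even_pow.2 ⟨even_two, hk.ne'⟩)
    rw [heven.neg_one_pow]

end Pool.Agent.H34.LA
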